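import Pool.Agent.helper58.ZB.SpecN
import Pool.Agent.helper43.LZ.ZL4
import Pool.Agent.helper23.LZ.ZL5

/-!
# Row ZLG of project ZB, block N (MP_baa4d7_al): `|D| EE η η'` is an integer
-/

set_option autoImplicit false

namespace Pool.Agent.GB

open Pool.Agent.helper58.DC Pool.Agent.DI Pool.Agent.GR Pool.Agent.OB Pool.Agent.DR Pool.Agent.FI Pool.Agent.FI3 Pool.Agent.FI4 Pool.Agent.LE Pool.Agent.BR

theorem ZLG_int (hC3 : C3_stmt) (hB2 : B2_stmt) {p : ℕ} {M : Ideal (integralClosure ℤ ℂ)} (hS : Setup p M) {G : Type} [Group G] [Finite G]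
    (L D : Subgroup G) (x' : G) (η : G → ℂ) (hηI : η ∈ IrrOn L) (hd : DefL p M L η D x') (η' : G → ℂ) (hη' : η' ∈ IrrOn L) :
    IntAt M ((Nat.card D : ℂ) * EE p L η η') := by
  classical
  obtain ⟨⟨n, hn0, hn1, -⟩, -, hint, -⟩ := (hB2 G L).2 η hηI
  obtain ⟨-, hconj', hint', -⟩ := (hB2 G L).2 η' hη'
  have hp := hS.pr
  have hcard := hd.card
  unfold pp at hcard
  set a : ℕ := padicValNat p (Nat.card (Cz L x')) with ha
  have := Fact.mk hp
  obtain ⟨c, hc⟩ : p ^ a ∣ Nat.card (Cz L x') := by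
    rw [ha]
    exact pow_padicValNat_dvd
  have hCpos : 0 < Nat.card (Cz L x') := Nat.card_pos
  have hcp : ¬ p ∣ c := by
    rintro ⟨c', hc'⟩
    have hc0 : c' ≠ 0 := by
      rintro rfl
      rw [hc', mul_zero, mul_zero] at hc
      omega
    have h1 : padicValNat p (Nat.card (Cz L x')) = a + (1 + padicValNat p c') := by
      rw [hc, hc', padicValNat.mul (pow_ne_zero _ hp.ne_zero) (mul_ne_zero hp.ne_zero hc0),
        padicValNat.prime_pow, padicValNat.mul hp.ne_zero hc0, padicValNat.self hp.one_lt]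
    omega
  have hnC : (n : ℂ) ≠ 0 := by exact_mod_cast hn0.ne'
  have hLC : (Nat.card L : ℂ) ≠ 0 := by
    have h : 0 < Nat.card L := Nat.card_pos
    exact_mod_cast h.ne'
  have hccI : IsIntegral ℤ (cc η (cls L x')) := cc_cls_int le_rfl hηI x'
  have h2 := cc_cls hηI x'
  rw [hn1, hc] at h2
  push_cast at h2
  have hcI : IsIntegral ℤ ((c : ℂ) * cc η (cls L x')) := by
    have h := isIntegral_algebraMap (R := ℤ) (A := ℂ) (x := (c : ℤ))
    have h' : IsIntegral ℤ (c : ℂ) := by simpa using h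
    exact h'.mul hccI
  have hcM : ¬ InM M ((c : ℂ) * cc η (cls L x')) := by
    intro h5
    rcases InM.or hS (IntAt.natCast hS c) (IntAt.of_isIntegral hS hccI) h5 with h6 | h6
    · exact hcp ((InM.natCast hS c).1 h6)
    · exact hd.ne h6
  have hA : IntAt M ((Nat.card D : ℂ) * n / Nat.card L) := by
    refine ⟨⟨η x', hint x'⟩, ⟨_, hcI⟩, fun h => hcM (InM.coe hS h), ?_⟩
    change (Nat.card D : ℂ) * n / Nat.card L * ((c : ℂ) * cc η (cls L x')) = η x'
    rw [hcard]
    push_cast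
    have h3 : (n : ℂ) * (η x' / n) = η x' := mul_div_cancel₀ _ hnC
    have h4 : (p : ℂ) ^ a * n / Nat.card L * ((c : ℂ) * cc η (cls L x')) =
        n * ((p : ℂ) ^ a * c * cc η (cls L x')) / Nat.card L := by ring
    rw [h4, h2, ← mul_assoc, mul_comm (n : ℂ), mul_assoc, h3, mul_div_assoc, mul_comm, div_mul_cancel₀ _ hLC]
  have hK : IsIntegral ℤ (cc η (kap p L η')) :=
    (hC3 G).1 L η hηI _ (ZL4_kap p L η' hconj') (ZL4_kapint p L η' hint')
  have hfin : (Nat.card D : ℂ) * EE p L η η' =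
      (Nat.card D : ℂ) * n / Nat.card L * cc η (kap p L η') := by
    rw [ZL4_cc, hn1]
    unfold EE
    field_simp
  rw [hfin]
  exact hA.mul hS (IntAt.of_isIntegral hS hK)

theorem ZLG (hZL2 : ZL2_stmt) (hZL3 : ZL3_stmt) (hC3 : C3_stmt) (hB2 : B2_stmt) (hCVF : CVF_stmt) : ZLG_stmt := by
  intro p M hM G _ _ L D x' η hη1 hd η' hη'
  obtain ⟨r, hr⟩ := hZL3 p hM.pr G L η hη1 η' hη'
  set R : ℚ := (Nat.card D : ℚ) * r with hR
  have hRC : (Nat.card D : ℂ) * EE p L η η' = (R : ℂ) := by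
    rw [hr, hR]
    push_cast
    rfl
  have hnum : (R : ℂ) * (R.den : ℂ) = (R.num : ℂ) := by
    have h1 : R * (R.den : ℚ) = (R.num : ℚ) := Rat.mul_den_eq_num R
    have h2 : ((R * (R.den : ℚ) : ℚ) : ℂ) = ((R.num : ℚ) : ℂ) := by rw [h1]
    rw [Rat.cast_mul, Rat.cast_natCast, Rat.cast_intCast] at h2
    exact h2
  have hden : R.den = 1 := by
    by_contra hne
    obtain ⟨q, hq, hqd⟩ := Nat.exists_prime_and_dvd hne
    have hcop : ¬ q ∣ R.num.natAbs := fun h => hq.one_lt.ne' (Nat.eq_one_of_dvd_coprimes R.reduced h hqd)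
    by_cases hqp : q = p
    · rw [hqp] at hqd hcop
      have h1 : IntAt M (R : ℂ) := by
        rw [← hRC]
        exact ZLG_int hC3 hB2 hM L D x' η hη1 hd η' hη'
      have h2 : InM M (R.num : ℂ) := by
        rw [← hnum]
        exact InM.mul_left hM h1 ((InM.natCast hM _).2 hqd)
      exact hcop (ZL5_dvd hM h2)
    · obtain ⟨M', hM'⟩ := ZL5_setup q hq
      obtain ⟨α, hα1, hα2, hα3⟩ := hZL2 p q hM.pr hq hqp M' hM' G L η hη1 η' hη'
      have h1 : IntAt M' (α * (R : ℂ)) := by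
        have h2 : α * (R : ℂ) = (Nat.card D : ℂ) * (α * EE p L η η') := by
          rw [← hRC]
          ring
        rw [h2]
        exact (IntAt.natCast hM' _).mul hM' (IntAt.of_isIntegral hM' hα3)
      have h2 : InM M' (α * (R.num : ℂ)) := by
        rw [← hnum, ← mul_assoc]
        exact InM.mul_left hM' h1 ((InM.natCast hM' _).2 hqd)
      have h3 : IntAt M' (R.num : ℂ) := IntAt.of_isIntegral hM' (by
        have := isIntegral_algebraMap (R := ℤ) (A := ℂ) (x := R.num)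
        simpa using this)
      rcases InM.or hM' (IntAt.of_isIntegral hM' hα1) h3 h2 with h4 | h4
      · exact hα2 h4
      · exact hcop (ZL5_dvd hM' h4)
  refine ⟨R.num, ?_⟩
  rw [hRC, ← hnum, hden, Nat.cast_one, mul_one]

end Pool.Agent.GB
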