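import Pool.Agent.helper7.ZB.SpecT

/-!
# Row ZXU of project ZB (MP_baa4d7_al): existence of the block of `L ⊓ nz E`
-/

set_option autoImplicit false

namespace Pool.Agent.ZB

open Pool.Agent.helper58.DC Pool.Agent.DI Pool.Agent.GR Pool.Agent.OB Pool.Agent.DR Pool.Agent.FI Pool.Agent.FI3 Pool.Agent.FI4 Pool.Agent.FI4I Pool.Agent.LE Pool.Agent.L5 Pool.Agent.NAB

theorem ZXU_cjS {G : Type} [Group G] {E : Subgroup G} {h : G} (hh : h ∈ nz E) : cjS h E = E := by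
  ext x
  rw [mem_cjS]
  have h1 := Subgroup.mem_normalizer_iff.1 ((nz E).inv_mem hh) x
  rw [inv_inv] at h1
  exact h1.symm

theorem ZXU_cd {G : Type} [Group G] (g : G) (Z : Subgroup G) : Nat.card (cjS g Z) = Nat.card Z :=
  (Nat.card_congr (Z.equivMapOfInjective (MulAut.conj g).toMonoidHom (MulAut.conj g).injective).toEquiv).symm

theorem ZXU (hZUH : ZUH_stmt) (hZE1 : ZE1_stmt) (hZE2 : ZE2_stmt) (hDEX : Pool.Agent.FI.DEX_stmt) (hDGL : DGL_stmt) (hEXB : EXB_stmt)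
    (hCNTL : CNTL_stmt) (hTRN : Pool.Agent.FI.TRN_stmt) : ZXU_stmt := by
  intro p κ M hS G _ _ L ψ hψ D x hD hK
  have hp : p.Prime := hS.1
  obtain ⟨-, ⟨-, hED, -, -, -⟩, -, h4a, h4b, h4c, -⟩ := hZE1 p hp κ G D hK
  have hDL : D ≤ L := hD.le.trans inf_le_left
  have hDn : D ≤ nz (EQ p κ.s D) := h4a.trans h4c
  have hcz : cz D ≤ nz (EQ p κ.s D) := h4b.trans h4c
  have hDH : D ≤ L ⊓ nz (EQ p κ.s D) := le_inf hDL hDn
  have heq : (L ⊓ nz (EQ p κ.s D)) ⊓ cz D = L ⊓ cz D := by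
    apply le_antisymm
    · exact inf_le_inf_right _ inf_le_left
    · exact le_inf (le_inf inf_le_left (inf_le_right.trans hcz)) inf_le_right
  obtain ⟨θ, hθ, hθψ⟩ := hDGL p M hS G L ψ hψ D x hD
  have hθ' : θ ∈ IrrOn ((L ⊓ nz (EQ p κ.s D)) ⊓ cz D) := by rw [heq]; exact hθ
  obtain ⟨η, hη, hθη⟩ := hEXB p M hS G (L ⊓ nz (EQ p κ.s D)) D hD.pg hDH θ hθ'
  have h0θ : ∀ x, x ∉ L ⊓ nz (EQ p κ.s D) → θ x = 0 :=
    fun x hx => IrrOn_zero hθ' (fun h => hx h.1)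
  have h0η : ∀ x, x ∉ L ⊓ nz (EQ p κ.s D) → η x = 0 := fun x hx => IrrOn_zero hη hx
  obtain ⟨-, hT⟩ := hTRN G M (L ⊓ nz (EQ p κ.s D)) L inf_le_left θ η ψ h0θ h0η hθη
  have hηψ : SB M L η ψ := hT.2 hθψ
  obtain ⟨Q, y, hQ, -⟩ := hDEX p M hS G (L ⊓ nz (EQ p κ.s D)) η hη
  obtain ⟨h, hh, hhQ⟩ := hCNTL p M hS G (L ⊓ nz (EQ p κ.s D)) D hD.pg hDH θ hθ' η hθη Q y hQ
  have hDQ : cjS h D ≤ Q := by
    intro z hz
    rw [mem_cjS] at hz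
    have h1 := hhQ _ hz
    have h2 : h * (h⁻¹ * z * h) * h⁻¹ = z := by group
    rw [h2] at h1
    exact h1
  have hEE : cjS h (EQ p κ.s D) = EQ p κ.s D := ZXU_cjS hh.2
  have hEQ : EQ p κ.s D ≤ Q := by
    intro z hz
    rw [← hEE] at hz
    exact hDQ (Subgroup.map_mono hED hz)
  have hLQ : L ⊓ cz Q ≤ L ⊓ nz (EQ p κ.s D) := by
    refine inf_le_inf_left _ (le_trans ?_ h4c)
    exact Subgroup.centralizer_le hEQ
  obtain ⟨hKQ, l, hl, hlQ, -⟩ := hZUH p κ M hS G L (L ⊓ nz (EQ p κ.s D)) inf_le_left ψ hψ D x hD hK η hη hηψ Q y hQ hLQ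
  have hcard : Nat.card Q ≤ Nat.card (cjS h D) := by
    rw [ZXU_cd, ← ZXU_cd l Q]
    exact Nat.card_le_card_of_injective _ (Subgroup.inclusion_injective hlQ)
  have hQD : cjS h D = Q := Subgroup.eq_of_le_of_card_ge hDQ hcard
  obtain ⟨-, -, h3⟩ := hZE2 p hp κ G D hK
  refine ⟨η, hη, hηψ, Q, y, hQ, hKQ, ?_⟩
  rw [← hQD, (h3 h).2, hEE]

end Pool.Agent.ZB
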